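import Pool.Agent.H99.HM.Targets

/-! Assembly of the basic facts. -/

namespace Pool.Agent.H99.HM

theorem facts (ha : T_fa) (hb : T_fb) (hc : T_fc) (hd : T_fd) (he : T_fe) : T_facts := by
  intro x ell s s1 h
  obtain ⟨a1, a2, a3, a4, a5, a6, a7, a8, a9, a10⟩ := ha x ell s s1 h
  obtain ⟨b1, b2, b3, b4, b5⟩ := hb x ell s s1 h
  obtain ⟨c1, c2, c3⟩ := hc x ell s s1 h
  obtain ⟨d1, d2⟩ := hd x ell s s1 h
  exact ⟨a1, a2, a3, a4, a5, a6, a7, a8, a9, a10, b1, b2, b3, b4, b5, c1, c2, d1, d2, c3,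
    he x ell s s1 h⟩

end Pool.Agent.H99.HM
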