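import Pool.Agent.H99.HM.Defs

/-!
# The Coulomb Hartree equation, radial solutions: targets of the modules

Every target is a `Prop`.  A module proves its target, and may take other targets as hypotheses.
Notation: `a = 1/(x+t)^2`, `S = Sf s`, `M = Mf s`, `phi = ∫_t^∞ a (1 - S)`.
-/

namespace Pool.Agent.H99.HM

open MeasureTheory Set Filter Topology Real
open scoped ContDiff

/-- `∫₀^∞ S^k/(x+t)^j`. -/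
noncomputable def Iw (k j : ℕ) (x : ℝ) (s : ℝ → ℝ) : ℝ :=
  ∫ t in Ioi (0 : ℝ), Sf s t ^ k / (x + t) ^ j

/-! ## Basic facts -/

/-- Basic facts about exterior solutions. -/
structure ExtFacts (x ell : ℝ) (s s1 : ℝ → ℝ) : Prop where
  contS : ContinuousOn s (Ici 0)
  mpos : 0 < Mf s
  vg : ∀ t, 0 ≤ t → Vg s1 t = s t
  S0 : Sf s 0 = 0
  Scont : ContinuousOn (Sf s) (Ici 0)
  Sder : ∀ t, 0 < t → HasDerivAt (Sf s) (4 * π * s t ^ 2) t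
  Smono : StrictMonoOn (Sf s) (Ici 0)
  Spos : ∀ t, 0 < t → 0 < Sf s t
  Slt : ∀ t, 0 ≤ t → Sf s t < Mf s
  Slim : Tendsto (Sf s) atTop (𝓝 (Mf s))
  phiInt : ∀ t, 0 < t → IntegrableOn (fun τ => (1 - Sf s τ) / (x + τ) ^ 2) (Ioi t)
  phiDer : ∀ t, 0 < t → HasDerivAt (phi x s) (-((1 - Sf s t) / (x + t) ^ 2)) t
  phiBd : ∀ t, 0 < t → |phi x s t| ≤ (1 + Mf s) / (x + t)
  phiUp : ∀ t, 0 < t → phi x s t ≤ (1 - Sf s t) / (x + t)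
  phiLim : Tendsto (phi x s) atTop (𝓝 0)
  slim : Tendsto s atTop (𝓝 0)
  s1lim : Tendsto s1 atTop (𝓝 0)
  s1pos : 0 < s1 0
  near0 : ∃ c C : ℝ, 0 < c ∧ 0 < C ∧ ∀ t ∈ Icc (0 : ℝ) 1,
    c * t ≤ s t ∧ s t ≤ C * t ∧ |s1 t| ≤ C ∧ Sf s t ≤ C * t ^ 3
  seq : ∃ T : ℕ → ℝ, (∀ n, 0 < T n) ∧ Tendsto T atTop atTop ∧
    Tendsto (fun n => T n * (s (T n) ^ 2 + s1 (T n) ^ 2)) atTop (𝓝 0)
  logder : ∃ C : ℝ, 0 < C ∧ ∀ t, 1 ≤ t → |s1 t| ≤ C * s t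

def T_facts : Prop := ∀ x ell s s1, Ext x ell s s1 → ExtFacts x ell s s1

/-- parts of `T_facts` -/
def T_fa : Prop := ∀ x ell s s1, Ext x ell s s1 →
  ContinuousOn s (Ici 0) ∧ 0 < Mf s ∧ (∀ t, 0 ≤ t → Vg s1 t = s t) ∧ Sf s 0 = 0 ∧
  ContinuousOn (Sf s) (Ici 0) ∧ (∀ t, 0 < t → HasDerivAt (Sf s) (4 * π * s t ^ 2) t) ∧
  StrictMonoOn (Sf s) (Ici 0) ∧ (∀ t, 0 < t → 0 < Sf s t) ∧ (∀ t, 0 ≤ t → Sf s t < Mf s) ∧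
  Tendsto (Sf s) atTop (𝓝 (Mf s))

def T_fb : Prop := ∀ x ell s s1, Ext x ell s s1 →
  (∀ t, 0 < t → IntegrableOn (fun τ => (1 - Sf s τ) / (x + τ) ^ 2) (Ioi t)) ∧
  (∀ t, 0 < t → HasDerivAt (phi x s) (-((1 - Sf s t) / (x + t) ^ 2)) t) ∧
  (∀ t, 0 < t → |phi x s t| ≤ (1 + Mf s) / (x + t)) ∧
  (∀ t, 0 < t → phi x s t ≤ (1 - Sf s t) / (x + t)) ∧
  Tendsto (phi x s) atTop (𝓝 0)

def T_fc : Prop := ∀ x ell s s1, Ext x ell s s1 →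
  Tendsto s atTop (𝓝 0) ∧ Tendsto s1 atTop (𝓝 0) ∧
  ∃ T : ℕ → ℝ, (∀ n, 0 < T n) ∧ Tendsto T atTop atTop ∧
    Tendsto (fun n => T n * (s (T n) ^ 2 + s1 (T n) ^ 2)) atTop (𝓝 0)

def T_fd : Prop := ∀ x ell s s1, Ext x ell s s1 →
  0 < s1 0 ∧ ∃ c C : ℝ, 0 < c ∧ 0 < C ∧ ∀ t ∈ Icc (0 : ℝ) 1,
    c * t ≤ s t ∧ s t ≤ C * t ∧ |s1 t| ≤ C ∧ Sf s t ≤ C * t ^ 3

def T_fe : Prop := ∀ x ell s s1, Ext x ell s s1 →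
  ∃ C : ℝ, 0 < C ∧ ∀ t, 1 ≤ t → |s1 t| ≤ C * s t

/-- Domination lemma for integrability. -/
def T_dom : Prop := ∀ (x : ℝ) (F : ℝ → ℝ) (C : ℝ), 0 ≤ x →
  AEStronglyMeasurable F (volume.restrict (Ioi 0)) →
  (∀ t ∈ Ioc (0 : ℝ) 1, |F t| ≤ C * t ^ 3) → (∀ t, 1 ≤ t → |F t| ≤ C) →
  IntegrableOn (fun t => F t / (x + t) ^ 2) (Ioi 0) ∧
  IntegrableOn (fun t => F t / (x + t) ^ 3) (Ioi 0)

/-- Basic facts about admissible functions. -/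
structure AdmFacts (g : ℝ → ℝ) : Prop where
  intg : IntegrableOn (fun t => g t ^ 2) (Ioi 0)
  intV : IntegrableOn (fun t => Vg g t ^ 2) (Ioi 0)
  Vcont : ContinuousOn (Vg g) (Ici 0)
  V0 : Vg g 0 = 0
  Vbd : ∀ t, 0 ≤ t → Vg g t ^ 2 ≤ t * ∫ τ in Ioi (0 : ℝ), g τ ^ 2
  Vlim : Tendsto (Vg g) atTop (𝓝 0)
  S0 : Sf (Vg g) 0 = 0
  Scont : ContinuousOn (Sf (Vg g)) (Ici 0)
  Sder : ∀ t, 0 < t → HasDerivAt (Sf (Vg g)) (4 * π * Vg g t ^ 2) t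
  Smono : MonotoneOn (Sf (Vg g)) (Ici 0)
  Snn : ∀ t, 0 ≤ t → 0 ≤ Sf (Vg g) t
  Sle : ∀ t, 0 ≤ t → Sf (Vg g) t ≤ Mf (Vg g)
  Slim : Tendsto (Sf (Vg g)) atTop (𝓝 (Mf (Vg g)))
  Sbd : ∀ t, 0 ≤ t → Sf (Vg g) t ≤ 2 * π * t ^ 2 * ∫ τ in Ioi (0 : ℝ), g τ ^ 2
  int1 : ∀ x, 0 ≤ x → IntegrableOn (fun t => Sf (Vg g) t / (x + t) ^ 2) (Ioi 0)
  int2 : ∀ x, 0 ≤ x → IntegrableOn (fun t => Sf (Vg g) t ^ 2 / (x + t) ^ 2) (Ioi 0)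
  attbd : ∀ x, 0 ≤ x → att x g ≤ 2 * π * (∫ τ in Ioi (0 : ℝ), g τ ^ 2) + 1 / 2
  Jbd : ∀ x ell, 0 ≤ x →
    2 * π * (∫ τ in Ioi (0 : ℝ), g τ ^ 2) + ell * Mf (Vg g) - 1 / 2 ≤ J x ell g

def T_adm : Prop := ∀ g, Adm g → AdmFacts g

/-! ## Identities for one exterior solution -/

/-- energy identities (multiply the equation by `s`) -/
def T_energy : Prop := ∀ x ell s s1, Ext x ell s s1 →
  Adm s1 ∧ kin s1 + ell * Mf s = Iw 1 2 x s - Iw 2 2 x s ∧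
  att x s1 = Iw 1 2 x s - Iw 2 2 x s / 2 ∧ J x ell s1 = -(Iw 2 2 x s) / 2 ∧ 0 < Iw 2 2 x s

/-- boundary identity (multiply the equation by `s'`) -/
def T_E1 : Prop := ∀ x ell s s1, Ext x ell s s1 →
  4 * π * s1 0 ^ 2 = 2 * Iw 1 3 x s - Iw 2 3 x s

/-- virial identity (multiply the equation by `t s'`) -/
def T_V : Prop := ∀ x ell s s1, Ext x ell s s1 →
  Iw 1 2 x s + 2 * x * Iw 1 3 x s - 3 / 2 * Iw 2 2 x s - x * Iw 2 3 x s = 2 * ell * Mf s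

/-- Benguria-Lieb: multiply the equation by `(x+t) s`. -/
def T_BL : Prop := ∀ x ell s s1, Ext x ell s s1 → Mf s < 2

/-- excess charge at `ell = 0` -/
def T_gt1 : Prop := ∀ x s s1, Ext x 0 s s1 → 1 < Mf s

/-- no solution for `ell ≥ 1` -/
def T_small : Prop := ∀ x ell s s1, Ext x ell s s1 → ell < 1

/-! ## Two exterior solutions -/

/-- The function `Ψ = ell + φ_r - φ_s` for `s` with parameter `ell` and `r` with parameter `0`. -/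
noncomputable def Psi (x ell : ℝ) (s r : ℝ → ℝ) (t : ℝ) : ℝ :=
  ell - ∫ τ in Ioi t, (Sf r τ - Sf s τ) / (x + τ) ^ 2

/-- the Wronskian `ω = s r' - r s'` -/
def T_W : Prop := ∀ x ell s s1 r r1, Ext x ell s s1 → Ext x 0 r r1 →
  IntegrableOn (fun t => (Sf r t - Sf s t) / (x + t) ^ 2) (Ioi 0) ∧
  (∀ t, 0 < t → Psi x ell s r t = ell + phi x r t - phi x s t) ∧
  ContinuousOn (Psi x ell s r) (Ici 0) ∧
  Tendsto (Psi x ell s r) atTop (𝓝 ell) ∧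
  (∀ t, 0 < t → HasDerivAt (Psi x ell s r) ((Sf r t - Sf s t) / (x + t) ^ 2) t) ∧
  ContinuousOn (fun t => s t * r1 t - r t * s1 t) (Ici 0) ∧
  (∀ t, 0 < t → HasDerivAt (fun t => s t * r1 t - r t * s1 t)
    (-(Psi x ell s r t * (s t * r t))) t) ∧
  Tendsto (fun t => s t * r1 t - r t * s1 t) atTop (𝓝 0) ∧
  IntegrableOn (fun t => Psi x ell s r t * (s t * r t)) (Ioi 0) ∧
  ∫ t in Ioi (0 : ℝ), Psi x ell s r t * (s t * r t) = 0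

def T_I3 : Prop := ∀ x ell s s1 r r1, Ext x ell s s1 → Ext x 0 r r1 →
  IntegrableOn (fun t => (1 / (x + t) ^ 2 + 2 * x / (x + t) ^ 3) *
    ((Sf r t - Sf s t) * (1 - (Sf r t + Sf s t) / 2))) (Ioi 0) ∧
  IntegrableOn (fun t => Psi x ell s r t * (s t - r t) ^ 2) (Ioi 0) ∧
  ∫ t in Ioi (0 : ℝ), (1 / (x + t) ^ 2 + 2 * x / (x + t) ^ 3) *
    ((Sf r t - Sf s t) * (1 - (Sf r t + Sf s t) / 2)) =
      ell * (Mf r - Mf s) - 4 * π * ∫ t in Ioi (0 : ℝ), Psi x ell s r t * (s t - r t) ^ 2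

/-- Lemma S (strictness) -/
def T_LS : Prop := ∀ x ell s s1 r r1, Ext x ell s s1 → 0 < ell → Ext x 0 r r1 →
  (∀ t, 0 ≤ t → Sf s t ≤ Sf r t) → s1 0 < r1 0 ∧ ∀ t, 0 < t → s t < r t

/-- tail comparison -/
def T_K3 : Prop := ∀ x ell s s1 r r1 R, Ext x ell s s1 → Ext x 0 r r1 → 0 < R →
  Mf r / (x + R) < ell → s R < r R → Sf s R ≤ Sf r R → ∀ t, R ≤ t → Sf s t ≤ Sf r t

/-! ## Minimisation -/

/-- one-dimensional ground state inequality -/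
def T_gs1 : Prop := ∀ x ell s s1, Ext x ell s s1 → ∀ h, Adm h →
  IntegrableOn (fun t => phi x s t * Vg h t ^ 2) (Ioi 0) ∧
  ∫ t in Ioi (0 : ℝ), (phi x s t - ell) * Vg h t ^ 2 ≤ ∫ t in Ioi (0 : ℝ), h t ^ 2

/-- exterior solutions are minimisers, with a remainder -/
def T_min : Prop := ∀ x ell s s1, Ext x ell s s1 → ∀ h, Adm h →
  IntegrableOn (fun t => (Sf (Vg h) t - Sf s t) ^ 2 / (x + t) ^ 2) (Ioi 0) ∧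
  J x ell s1 + 1 / 2 * ∫ t in Ioi (0 : ℝ), (Sf (Vg h) t - Sf s t) ^ 2 / (x + t) ^ 2 ≤ J x ell h

def T_uniq : Prop := ∀ x ell s s1 r r1, Ext x ell s s1 → Ext x ell r r1 →
  ∀ t, 0 ≤ t → s t = r t ∧ s1 t = r1 t

def T_neg : Prop := ∀ x, 0 ≤ x → ∃ g, Adm g ∧ J x 0 g < 0

/-- weak compactness and lower semicontinuity -/
def T_lsc : Prop := ∀ (xs ells : ℕ → ℝ) (x ell : ℝ) (gs : ℕ → ℝ → ℝ) (C : ℝ),
  (∀ n, 0 ≤ xs n) → (∀ n, 0 ≤ ells n) → Tendsto xs atTop (𝓝 x) → Tendsto ells atTop (𝓝 ell) →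
  (∀ n, Adm (gs n)) → (∀ n, kin (gs n) ≤ C) → (∀ n, Mf (Vg (gs n)) ≤ C) →
  ∃ (ψ : ℕ → ℕ) (h : ℝ → ℝ), StrictMono ψ ∧ Adm h ∧
    (∀ t, 0 ≤ t → Tendsto (fun n => Vg (gs (ψ n)) t) atTop (𝓝 (Vg h t))) ∧
    (∀ t, 0 ≤ t → Tendsto (fun n => Sf (Vg (gs (ψ n))) t) atTop (𝓝 (Sf (Vg h) t))) ∧
    (∀ K, (∀ᶠ n in atTop, Mf (Vg (gs (ψ n))) ≤ K) → Mf (Vg h) ≤ K) ∧
    (∀ K, (∀ᶠ n in atTop, J (xs (ψ n)) (ells (ψ n)) (gs (ψ n)) ≤ K) → J x ell h ≤ K)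

/-- continuity of `J` in the parameters -/
def T_up : Prop := ∀ (xs ells : ℕ → ℝ) (x ell : ℝ) (h : ℝ → ℝ),
  (∀ n, 0 ≤ xs n) → Tendsto xs atTop (𝓝 x) → Tendsto ells atTop (𝓝 ell) → Adm h →
  Tendsto (fun n => J (xs n) (ells n) h) atTop (𝓝 (J x ell h))

/-- existence of minimisers for `ell > 0` -/
def T_exp : Prop := ∀ x ell, 0 ≤ x → 0 < ell → ∃ g, IsMin x ell g

/-- weak Euler-Lagrange equation -/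
def T_EL1 : Prop := ∀ x ell g, 0 ≤ x → 0 ≤ ell → IsMin x ell g → ∀ h, Adm h →
  IntegrableOn (fun t => g t * h t) (Ioi 0) ∧
  IntegrableOn (fun t => (ell - phi x (Vg g) t) * (Vg g t * Vg h t)) (Ioi 0) ∧
  (∫ t in Ioi (0 : ℝ), g t * h t) +
    ∫ t in Ioi (0 : ℝ), (ell - phi x (Vg g) t) * (Vg g t * Vg h t) = 0

/-- regularity of minimisers -/
def T_EL2 : Prop := ∀ x ell g, 0 ≤ x → 0 ≤ ell → IsMin x ell g →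
  ∃ v1 : ℝ → ℝ, ContinuousOn v1 (Ioi 0) ∧ (∀ᵐ t ∂(volume.restrict (Ioi (0 : ℝ))), g t = v1 t) ∧
    (∀ t, 0 < t → HasDerivAt (Vg g) (v1 t) t) ∧
    (∀ t, 0 < t → HasDerivAt v1 ((ell - phi x (Vg g) t) * Vg g t) t)

/-- minimisers are zero or exterior solutions -/
def T_EL : Prop := ∀ x ell g, 0 ≤ x → 0 ≤ ell → IsMin x ell g →
  (∀ t, 0 ≤ t → Vg g t = 0) ∨ ∃ s s1, Ext x ell s s1 ∧ kin s1 = kin g ∧
    ((∀ t, 0 ≤ t → s t = Vg g t) ∨ (∀ t, 0 ≤ t → s t = -Vg g t))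

/-- existence at `ell = 0`, with approximation of the mass -/
def T_ex0 : Prop := ∀ x, 0 ≤ x → ∃ s s1, Ext x 0 s s1 ∧ ∀ ε, 0 < ε →
  ∃ ell r r1, 0 < ell ∧ ell < ε ∧ Ext x ell r r1 ∧ Mf s - ε < Mf r

/-! ## Uniform bounds, compactness, comparison -/

def T_K2 : Prop := ∀ x ell s s1, Ext x ell s s1 →
  kin s1 ≤ 1 ∧ s1 0 ≤ 68 ∧ ∀ t ∈ Icc (0 : ℝ) 1, |s1 t - s1 0| ≤ 68 * t ∧ s t ≤ 68 * t ∧
    Sf s t ≤ 4 * π * 68 ^ 2 * t ^ 3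

def T_comp : Prop := ∀ (xs ells : ℕ → ℝ) (x ell : ℝ) (ss s1s : ℕ → ℝ → ℝ),
  Tendsto xs atTop (𝓝 x) → Tendsto ells atTop (𝓝 ell) →
  (∀ n, Ext (xs n) (ells n) (ss n) (s1s n)) →
  ∃ (ψ : ℕ → ℕ) (h r r1 : ℝ → ℝ), StrictMono ψ ∧ IsMin x ell h ∧ (∀ t, 0 ≤ t → r t = Vg h t) ∧
    (∀ t, 0 ≤ t → Tendsto (fun n => ss (ψ n) t) atTop (𝓝 (r t))) ∧
    (∀ t, 0 ≤ t → Tendsto (fun n => Sf (ss (ψ n)) t) atTop (𝓝 (Sf r t))) ∧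
    ((0 < ell ∧ ∀ t, 0 ≤ t → r t = 0) ∨ Ext x ell r r1)

/-- open part of Lemma K -/
def T_Ko : Prop := ∀ x ell s s1 r r1, Ext x ell s s1 → Ext x 0 r r1 → ∀ t0, 0 ≤ t0 →
  Sf r t0 < Sf s t0 → ∃ ell' s' s1', ell < ell' ∧ Ext x ell' s' s1' ∧ Sf r t0 < Sf s' t0

/-- closed part of Lemma K -/
def T_Kc : Prop := ∀ x r r1, Ext x 0 r r1 → ∀ (ells : ℕ → ℝ) (ell : ℝ) (ss s1s : ℕ → ℝ → ℝ),
  0 < ell → Tendsto ells atTop (𝓝 ell) → (∀ n, Ext x (ells n) (ss n) (s1s n)) →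
  (∀ s s1, Ext x ell s s1 → ∀ t, 0 ≤ t → Sf s t ≤ Sf r t) →
  ∃ n, ∀ t, 0 ≤ t → Sf (ss n) t ≤ Sf r t

/-- Lemma K: the density with `ell > 0` is more diffuse -/
def T_K : Prop := ∀ x ell s s1 r r1, Ext x ell s s1 → 0 < ell → Ext x 0 r r1 →
  ∀ t, 0 ≤ t → Sf s t ≤ Sf r t

/-! ## The minimal energy as a function of the radius -/

def T_einf : Prop := ∀ x ell, 0 ≤ x → 0 ≤ ell →
  (∀ s s1, Ext x ell s s1 → Einf x ell = J x ell s1) ∧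
  (∀ h, Adm h → Einf x ell ≤ J x ell h) ∧
  ((¬ ∃ s s1, Ext x ell s s1) → Einf x ell = 0) ∧ Einf x ell ≤ 0

/-- continuity of the solution at `ell = 0` in the radius -/
def T_contz : Prop := ∀ (zs : ℕ → ℝ) (y : ℝ) (ss s1s : ℕ → ℝ → ℝ) (s s1 : ℝ → ℝ),
  Tendsto zs atTop (𝓝 y) → (∀ n, Ext (zs n) 0 (ss n) (s1s n)) → Ext y 0 s s1 →
  ∀ t, 0 ≤ t → Tendsto (fun n => Sf (ss n) t) atTop (𝓝 (Sf s t))

/-- envelope inequality -/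
def T_env : Prop := ∀ y z ell s s1, 0 ≤ z → Ext y ell s s1 →
  IntegrableOn (fun t => (1 / (y + t) ^ 2 - 1 / (z + t) ^ 2) * (Sf s t - Sf s t ^ 2 / 2)) (Ioi 0) ∧
  Einf z ell ≤ Einf y ell +
    ∫ t in Ioi (0 : ℝ), (1 / (y + t) ^ 2 - 1 / (z + t) ^ 2) * (Sf s t - Sf s t ^ 2 / 2)

def T_lip : Prop := ∀ ell, 0 ≤ ell → ∃ C : ℝ, ∀ y z, 0 ≤ y → y ≤ z →
  Einf y ell ≤ Einf z ell ∧ Einf z ell - Einf y ell ≤ C * (z - y)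

def T_dini : Prop := ∀ ell y ε : ℝ, 0 < ell → 0 ≤ y → 0 < ε → ∀ᶠ z in 𝓝[>] y,
  (Einf z ell - Einf z 0) - (Einf y ell - Einf y 0) ≤ ε * (z - y)

def T_anti : Prop := ∀ ell : ℝ, 0 < ell →
  AntitoneOn (fun x => Einf x ell - Einf x 0) (Ici (0 : ℝ))

/-- the one-dimensional main theorem -/
def T_one : Prop := ∀ x ell s s1 w w1, Ext x ell s s1 → Ext 0 0 w w1 → Mf s ≤ Mf w

/-! ## Radial solutions on the half line -/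

/-- uniqueness for linear second order equations -/
def T_ode : Prop := ∀ (c y y1 : ℝ → ℝ) (r0 : ℝ), ContinuousOn c (Ioi 0) →
  (∀ r, 0 < r → HasDerivAt y (y1 r) r) → (∀ r, 0 < r → HasDerivAt y1 (c r * y r) r) →
  0 < r0 → y r0 = 0 → y1 r0 = 0 → ∀ r, 0 < r → y r = 0 ∧ y1 r = 0

def T_pos : Prop := ∀ lam σ σ1, RadSol lam σ σ1 → (∃ r, 0 < r ∧ σ r ≠ 0) → lam ≤ 0

def T_bump : Prop := ∀ lam σ σ1, RadSol lam σ σ1 → lam ≤ 0 → 1 < Mf σ →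
  ∃ x ell s s1, Ext x ell s s1 ∧ Mf σ ≤ Mf s

def T_real : Prop := ∀ lam s s1, RadSolC lam s s1 →
  ∃ σ σ1, RadSol lam σ σ1 ∧ ∀ r, 0 < r → |σ r| = ‖s r‖

/-! ## Three dimensions -/

/-- `|r f(r)|` -/
noncomputable def rf (f : ℝ → ℂ) (r : ℝ) : ℝ := ‖(r : ℂ) * f r‖

def T_polar : Prop :=
  (∀ F : ℝ → ℂ, (Integrable (fun x : E3 => F ‖x‖) ↔
      IntegrableOn (fun r : ℝ => (r : ℂ) ^ 2 * F r) (Ioi 0)) ∧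
    ∫ x : E3, F ‖x‖ = 4 * (π : ℂ) * ∫ r in Ioi (0 : ℝ), (r : ℂ) ^ 2 * F r) ∧
  (∀ F : ℝ → ℝ, (Integrable (fun x : E3 => F ‖x‖) ↔
      IntegrableOn (fun r : ℝ => r ^ 2 * F r) (Ioi 0)) ∧
    ∫ x : E3, F ‖x‖ = 4 * π * ∫ r in Ioi (0 : ℝ), r ^ 2 * F r)

/-- the potential of a ball -/
def T_ball : Prop := ∀ (x : E3) (R : ℝ), 0 < R →
  IntegrableOn (fun y : E3 => 1 / ‖x - y‖) (Metric.ball 0 R) ∧
  ∫ y in Metric.ball (0 : E3) R, 1 / ‖x - y‖ =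
    if R ≤ ‖x‖ then 4 * π * R ^ 3 / (3 * ‖x‖) else 2 * π * R ^ 2 - 2 * π / 3 * ‖x‖ ^ 2

/-- Newton's theorem -/
def T_newton : Prop := ∀ (u : E3 → ℂ) (f : ℝ → ℂ), MemLp u 2 volume →
  (∀ᵐ x, u x = f ‖x‖) → ∀ x : E3, x ≠ 0 →
  Integrable (fun y => ‖u y‖ ^ 2 / ‖x - y‖) ∧
  IntegrableOn (fun t => Sf (rf f) t / t ^ 2) (Ioi ‖x‖) ∧
  hartree u x = ∫ t in Ioi ‖x‖, Sf (rf f) t / t ^ 2

/-- radial `L²` functions -/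
def T_radm : Prop := ∀ (u : E3 → ℂ) (f : ℝ → ℂ), MemLp u 2 volume → (∀ᵐ x, u x = f ‖x‖) →
  MemLp (fun r : ℝ => (r : ℂ) * f r) 2 (volume.restrict (Ioi 0)) ∧ mass u = Mf (rf f)

/-- the radial weak equation -/
def WeakRad (lam : ℝ) (f : ℝ → ℂ) : Prop := ∀ q : ℝ → ℝ, ContDiff ℝ ∞ q → HasCompactSupport q →
  ∫ r in Ioi (0 : ℝ), ((4 * r ^ 3 * deriv (deriv q) (r ^ 2) + 6 * r * deriv q (r ^ 2)
    + (phi 0 (rf f) r + lam) * (r * q (r ^ 2)) : ℝ) : ℂ) * ((r : ℂ) * f r) = 0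

def T_weak : Prop := ∀ u lam f, IsSol u lam → (∀ᵐ x, u x = f ‖x‖) → WeakRad lam f

/-- du Bois-Reymond / Weyl lemma in one dimension -/
def T_dbr : Prop := ∀ (s : ℝ → ℂ) (c : ℝ → ℝ), ContinuousOn c (Ioi 0) →
  MemLp s 2 (volume.restrict (Ioi 0)) →
  (∀ η : ℝ → ℝ, ContDiff ℝ ∞ η → HasCompactSupport η → tsupport η ⊆ Ioi 0 →
    ∫ r in Ioi (0 : ℝ), ((deriv (deriv η) r + c r * η r : ℝ) : ℂ) * s r = 0) →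
  ∃ z z1 : ℝ → ℂ, (∀ᵐ r ∂(volume.restrict (Ioi (0 : ℝ))), z r = s r) ∧
    (∀ r, 0 < r → HasDerivAt z (z1 r) r) ∧
    (∀ r, 0 < r → HasDerivAt z1 (-(c r : ℂ) * z r) r)

def T_radc : Prop := ∀ lam f, MemLp (fun r : ℝ => (r : ℂ) * f r) 2 (volume.restrict (Ioi 0)) →
  WeakRad lam f → ∃ s s1, RadSolC lam s s1 ∧ Mf (fun r => ‖s r‖) = Mf (rf f)

/-- density of test functions in `H¹` -/
def T_dens : Prop := ∀ v G, IsH1 v G → ∃ φ ψ : ℕ → E3 → ℝ, (∀ n, IsTest (φ n) ∧ IsTest (ψ n)) ∧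
  Tendsto (fun n => ∫ x, ‖v x - ((φ n x : ℂ) + (ψ n x : ℂ) * Complex.I)‖ ^ 2) atTop (𝓝 0) ∧
  ∀ i, Tendsto (fun n => ∫ x, ‖G i x - ((pd i (φ n) x : ℂ) + (pd i (ψ n) x : ℂ) * Complex.I)‖ ^ 2)
    atTop (𝓝 0)

/-- ground state inequality for test functions -/
def T_gs3c : Prop := ∀ s s1, Ext 0 0 s s1 → ∀ φ, IsTest φ →
  Integrable (fun x => φ x ^ 2 / ‖x‖) ∧ Integrable (fun x => phi 0 s ‖x‖ * φ x ^ 2) ∧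
  ∫ x, phi 0 s ‖x‖ * φ x ^ 2 ≤ ∫ x, ∑ i, pd i φ x ^ 2

/-- ground state inequality in `H¹` -/
def T_gs3 : Prop := ∀ s s1, Ext 0 0 s s1 → ∀ v G, IsH1 v G →
  Integrable (fun x => ‖v x‖ ^ 2 / ‖x‖) ∧ Integrable (fun x => phi 0 s ‖x‖ * ‖v x‖ ^ 2) ∧
  ∫ x, phi 0 s ‖x‖ * ‖v x‖ ^ 2 ≤ ∫ x, ∑ i, ‖G i x‖ ^ 2

/-- the three-dimensional function of an exterior solution at `x = 0` -/
noncomputable def wfun (s : ℝ → ℝ) (x : E3) : ℂ := ((s ‖x‖ / ‖x‖ : ℝ) : ℂ)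

def T_wh1 : Prop := ∀ s s1, Ext 0 0 s s1 → ∃ G, IsH1 (wfun s) G ∧ mass (wfun s) = Mf s ∧
  (∀ x : E3, x ≠ 0 → hartree (wfun s) x = ∫ t in Ioi ‖x‖, Sf s t / t ^ 2) ∧
  Integrable (fun x => ‖wfun s x‖ ^ 2 * hartree (wfun s) x) ∧
  ∫ x, ‖wfun s x‖ ^ 2 * hartree (wfun s) x = Iw 2 2 0 s ∧
  energy (wfun s) G = -(Iw 2 2 0 s) / 2

def T_att : Prop := ∀ s s1, Ext 0 0 s s1 → Attained (Mf s)

/-- the final theorem -/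
def T_fin : Prop := ∀ (u : E3 → ℂ) (lam : ℝ), IsSol u lam → IsRadial u →
  (∃ t, mass u ≤ t ∧ 0 < t ∧ Attained t) ∧
  ∀ tc : ℝ, (∀ t, 0 < t → (Attained t ↔ t ≤ tc)) → mass u ≤ tc

end Pool.Agent.H99.HM
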