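import Pool.Agent.H99.HM.Fin
import Pool.Agent.H36.HM.ADM
import Pool.Agent.H36.HM.EL3
import Pool.Agent.H36.HM.GS1
import Pool.Agent.H36.HM.UNIQ
import Pool.Agent.H36.HM.ATT
import Pool.Agent.H38.HM.FE
import Pool.Agent.H38.HM.K
import Pool.Agent.H38.HM.KC
import Pool.Agent.H38.HM.Dini
import Pool.Agent.H38.HM.Lip
import Pool.Agent.H38.HM.Dens
import Pool.Agent.H38.HM.Weak
import Pool.Agent.H41.HM.Dom
import Pool.Agent.H41.HM.E1
import Pool.Agent.H41.HM.En
import Pool.Agent.H41.HM.W
import Pool.Agent.H41.HM.I3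
import Pool.Agent.H41.HM.K2
import Pool.Agent.H41.HM.K3
import Pool.Agent.H41.HM.LS
import Pool.Agent.H41.HM.Ball
import Pool.Agent.H41.HM.Env
import Pool.Agent.H41.HM.Newt
import Pool.Agent.H41.HM.Polar
import Pool.Agent.H47.HM.EXP
import Pool.Agent.H47.HM.LSC
import Pool.Agent.H47.HM.MIN
import Pool.Agent.H49.HM.GS3
import Pool.Agent.H49.HM.GS3C
import Pool.Agent.H49.HM.WH1
import Pool.Agent.H54.HM.Gt1
import Pool.Agent.H54.HM.Neg
import Pool.Agent.H54.HM.Ode
import Pool.Agent.H54.HM.Pos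
import Pool.Agent.H54.HM.RealP
import Pool.Agent.H54.HM.Dbr
import Pool.Agent.H54.HM.Radc
import Pool.Agent.H83.HM.Bump3

/-!
# The Coulomb Hartree equation, radial solutions: assembly of the modules
-/

namespace Pool.Agent.H99.HM.Main

open Pool.Agent.H99.HM

theorem facts : T_facts := Pool.Agent.H38.HM.facts
theorem dom : T_dom := Pool.Agent.H41.HM.dom
theorem ode : T_ode := Pool.Agent.H54.HM.ode
theorem adm : T_adm := Pool.Agent.H36.HM.ADM
theorem energy : T_energy := Pool.Agent.H41.HM.energy facts dom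
theorem E1 : T_E1 := Pool.Agent.H41.HM.e1 facts dom
theorem V : T_V := Pool.Agent.H41.HM.v facts dom energy
theorem BL : T_BL := Pool.Agent.H41.HM.bl facts
theorem small : T_small := Pool.Agent.H41.HM.small facts
theorem gt1 : T_gt1 := Pool.Agent.H54.HM.gt1 facts
theorem W : T_W := Pool.Agent.H41.HM.w facts dom
theorem I3 : T_I3 := Pool.Agent.H41.HM.i3 facts dom W V
theorem LS : T_LS := Pool.Agent.H41.HM.ls facts dom W I3 E1
theorem K3 : T_K3 := Pool.Agent.H41.HM.k3 facts W
theorem gs1 : T_gs1 := Pool.Agent.H36.HM.GS1 facts adm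
theorem min : T_min := Pool.Agent.H47.HM.MIN.min facts adm energy gs1
theorem uniq : T_uniq := Pool.Agent.H36.HM.UNIQ facts energy min
theorem neg : T_neg := Pool.Agent.H54.HM.neg adm
theorem lsc : T_lsc := Pool.Agent.H47.HM.LSC.lsc adm
theorem up : T_up := Pool.Agent.H47.HM.EXP.up adm
theorem exp : T_exp := Pool.Agent.H47.HM.EXP.exp adm lsc
theorem EL1 : T_EL1 := Pool.Agent.H36.HM.EL1 adm
theorem EL2 : T_EL2 := Pool.Agent.H36.HM.EL2 adm EL1
theorem EL : T_EL := Pool.Agent.H36.HM.EL3 adm EL2 ode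
theorem K2 : T_K2 := Pool.Agent.H41.HM.k2 facts adm energy BL small
theorem comp : T_comp :=
  Pool.Agent.H47.HM.EXP.comp facts adm energy BL K2 min lsc up EL neg
theorem ex0 : T_ex0 := Pool.Agent.H47.HM.MIN.ex0 exp EL neg facts comp
theorem contz : T_contz := Pool.Agent.H47.HM.MIN.contz comp uniq
theorem einf : T_einf := Pool.Agent.H47.HM.MIN.einf adm energy min exp EL ex0
theorem Ko : T_Ko := Pool.Agent.H38.HM.ko facts energy exp EL comp uniq
theorem Kc : T_Kc := Pool.Agent.H38.HM.kc K2 comp LS K3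
theorem K : T_K := Pool.Agent.H38.HM.k small Ko Kc
theorem real : T_real := Pool.Agent.H54.HM.real ode
theorem pos : T_pos := Pool.Agent.H54.HM.pos ode

theorem env : T_env := Pool.Agent.H41.HM.env facts dom energy einf
theorem lip : T_lip := Pool.Agent.H38.HM.lip dom E1 BL env K2 einf
theorem dini : T_dini := Pool.Agent.H38.HM.dini dom E1 BL env K2 K ex0 einf contz
theorem anti : T_anti := Pool.Agent.H38.HM.anti lip dini
theorem one : T_one := Pool.Agent.H41.HM.one energy einf anti ex0 uniq facts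
theorem polar : T_polar := Pool.Agent.H41.HM.polar
theorem radm : T_radm := Pool.Agent.H41.HM.radm polar
theorem newton : T_newton := Pool.Agent.H41.HM.newton polar radm
theorem weak : T_weak := Pool.Agent.H38.HM.weak polar radm newton
theorem dbr : T_dbr := Pool.Agent.H54.HM.dbr
theorem radc : T_radc := Pool.Agent.H54.HM.radc dbr
theorem bump : T_bump := Pool.Agent.H83.HM.bump ode
theorem dens : T_dens := Pool.Agent.H38.HM.dens
theorem gs3c : T_gs3c := Pool.Agent.H49.HM.GS3C facts gs1 polar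
theorem gs3 : T_gs3 := Pool.Agent.H49.HM.GS3 facts dens gs3c
theorem wh1 : T_wh1 := Pool.Agent.H49.HM.WH1 facts energy polar newton dom
theorem att : T_att := Pool.Agent.H36.HM.ATT facts gs3 wh1

theorem fin : T_fin :=
  Pool.Agent.H99.HM.fin radm weak radc real pos bump one ex0 gt1 att

end Pool.Agent.H99.HM.Main
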