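import Mathlib

/-!
# The Coulomb Hartree equation: definitions

Three-dimensional objects (`IsH1`, `mass`, `hartree`, `energy`, `Attained`, `IsSol`, `IsRadial`) and
the one-dimensional objects used in the proof.
-/

namespace Pool.Agent.H99.HM

open MeasureTheory Set Filter Topology Real
open scoped ContDiff

/-! ### Three-dimensional objects -/

/-- Euclidean three-space. -/
abbrev E3 : Type := EuclideanSpace ℝ (Fin 3)

/-- Test functions: smooth with compact support. -/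
def IsTest (φ : E3 → ℝ) : Prop := ContDiff ℝ ∞ φ ∧ HasCompactSupport φ

/-- The `i`-th partial derivative. -/
noncomputable def pd (i : Fin 3) (φ : E3 → ℝ) (x : E3) : ℝ :=
  fderiv ℝ φ x (EuclideanSpace.single i 1)

/-- The Laplacian. -/
noncomputable def lap (φ : E3 → ℝ) (x : E3) : ℝ := ∑ i, pd i (pd i φ) x

/-- `u ∈ H¹(ℝ³; ℂ)` with weak gradient `G`. -/
structure IsH1 (u : E3 → ℂ) (G : Fin 3 → E3 → ℂ) : Prop where
  memLp : MemLp u 2 volume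
  memLp_grad : ∀ i, MemLp (G i) 2 volume
  weak : ∀ i φ, IsTest φ → ∫ x, u x * (pd i φ x : ℂ) = - ∫ x, G i x * (φ x : ℂ)

/-- The mass `∫ |u|²`. -/
noncomputable def mass (u : E3 → ℂ) : ℝ := ∫ x, ‖u x‖ ^ 2

/-- The Hartree potential `|u|² * |x|⁻¹`. -/
noncomputable def hartree (u : E3 → ℂ) (x : E3) : ℝ := ∫ y, ‖u y‖ ^ 2 / ‖x - y‖

/-- The Hartree energy `∫ (|∇u|² - |u|²/|x| + (1/2) |u|² (|u|² * |x|⁻¹))`. -/
noncomputable def energy (u : E3 → ℂ) (G : Fin 3 → E3 → ℂ) : ℝ :=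
  (∫ x, ∑ i, ‖G i x‖ ^ 2) - (∫ x, ‖u x‖ ^ 2 / ‖x‖) + 1 / 2 * ∫ x, ‖u x‖ ^ 2 * hartree u x

/-- The infimum `e(t)` of the energy over `H¹` functions of mass `t` is attained. -/
def Attained (t : ℝ) : Prop :=
  ∃ v G, IsH1 v G ∧ mass v = t ∧
    ∀ v' G', IsH1 v' G' → mass v' = t → energy v G ≤ energy v' G'

/-- `u ∈ H¹` solves `(-Δ - |x|⁻¹ + |u|² * |x|⁻¹) u = λ u` in the sense of distributions. -/
def IsSol (u : E3 → ℂ) (lam : ℝ) : Prop :=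
  (∃ G, IsH1 u G) ∧ ∀ φ, IsTest φ →
    (∫ x, (-(lap φ x) : ℂ) * u x) - (∫ x, ((φ x / ‖x‖ : ℝ) : ℂ) * u x)
      + (∫ x, ((hartree u x * φ x : ℝ) : ℂ) * u x) = (lam : ℂ) * ∫ x, (φ x : ℂ) * u x

/-- `u` is a radial function. -/
def IsRadial (u : E3 → ℂ) : Prop := ∃ f : ℝ → ℂ, ∀ᵐ x, u x = f ‖x‖

/-! ### One-dimensional objects (`t = |x| - x₀` is the distance to an excluded ball) -/

/-- `S(t) = 4π ∫₀ᵗ s²`. -/
noncomputable def Sf (s : ℝ → ℝ) (t : ℝ) : ℝ := 4 * π * ∫ τ in (0 : ℝ)..t, s τ ^ 2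

/-- The total mass `4π ∫₀^∞ s²`. -/
noncomputable def Mf (s : ℝ → ℝ) : ℝ := 4 * π * ∫ t in Ioi (0 : ℝ), s t ^ 2

/-- The potential `φ(t) = ∫_t^∞ (1 - S(τ)) / (x + τ)² dτ`. -/
noncomputable def phi (x : ℝ) (s : ℝ → ℝ) (t : ℝ) : ℝ :=
  ∫ τ in Ioi t, (1 - Sf s τ) / (x + τ) ^ 2

/-- `s` (with derivative `s1`) is a positive solution of the radial problem outside the ball of
radius `x` with chemical potential `-ell`:  `s'' = (ell - φ) s`, `s(0) = 0`, `s ∈ H¹`. -/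
structure Ext (x ell : ℝ) (s s1 : ℝ → ℝ) : Prop where
  x0 : 0 ≤ x
  l0 : 0 ≤ ell
  zero : s 0 = 0
  pos : ∀ t, 0 < t → 0 < s t
  cont1 : ContinuousOn s1 (Ici 0)
  der0 : HasDerivWithinAt s (s1 0) (Ici 0) 0
  der : ∀ t, 0 < t → HasDerivAt s (s1 t) t
  der1 : ∀ t, 0 < t → HasDerivAt s1 ((ell - phi x s t) * s t) t
  int0 : IntegrableOn (fun t => s t ^ 2) (Ioi 0)
  int1 : IntegrableOn (fun t => s1 t ^ 2) (Ioi 0)

/-- `v_g(t) = ∫₀ᵗ g`. -/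
noncomputable def Vg (g : ℝ → ℝ) (t : ℝ) : ℝ := ∫ τ in (0 : ℝ)..t, g τ

/-- `g` and `v_g` are square integrable on `(0,∞)`. -/
structure Adm (g : ℝ → ℝ) : Prop where
  mem : MemLp g 2 (volume.restrict (Ioi 0))
  memV : MemLp (Vg g) 2 (volume.restrict (Ioi 0))

/-- Kinetic energy `4π ∫ g²`. -/
noncomputable def kin (g : ℝ → ℝ) : ℝ := 4 * π * ∫ t in Ioi (0 : ℝ), g t ^ 2

/-- `∫ (S - S²/2) / (x+t)²` with `S` the mass function of `v_g`. -/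
noncomputable def att (x : ℝ) (g : ℝ → ℝ) : ℝ :=
  ∫ t in Ioi (0 : ℝ), (Sf (Vg g) t - Sf (Vg g) t ^ 2 / 2) / (x + t) ^ 2

/-- The energy of the exterior problem. -/
noncomputable def J (x ell : ℝ) (g : ℝ → ℝ) : ℝ := kin g + ell * Mf (Vg g) - att x g

/-- `g` is a minimiser. -/
def IsMin (x ell : ℝ) (g : ℝ → ℝ) : Prop := Adm g ∧ ∀ h, Adm h → J x ell g ≤ J x ell h

/-- the minimal energy -/
noncomputable def Einf (x ell : ℝ) : ℝ := sInf (J x ell '' {g | Adm g})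

/-- Radial solution of the Hartree equation, `σ(r) = r u(r)`, real valued. -/
structure RadSol (lam : ℝ) (σ σ1 : ℝ → ℝ) : Prop where
  zero : Tendsto σ (𝓝[>] 0) (𝓝 0)
  der : ∀ r, 0 < r → HasDerivAt σ (σ1 r) r
  der1 : ∀ r, 0 < r → HasDerivAt σ1 (-(phi 0 σ r + lam) * σ r) r
  int0 : IntegrableOn (fun r => σ r ^ 2) (Ioi 0)

/-- The same, complex valued. -/
structure RadSolC (lam : ℝ) (s s1 : ℝ → ℂ) : Prop where
  zero : Tendsto s (𝓝[>] 0) (𝓝 0)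
  der : ∀ r, 0 < r → HasDerivAt s (s1 r) r
  der1 : ∀ r, 0 < r → HasDerivAt s1 (-((phi 0 (fun t => ‖s t‖) r + lam : ℝ) : ℂ) * s r) r
  int0 : IntegrableOn (fun r => ‖s r‖ ^ 2) (Ioi 0)

end Pool.Agent.H99.HM
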