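import Pool.Agent.H99.HM.Targets

/-! Final assembly for radial solutions. -/

namespace Pool.Agent.H99.HM

open MeasureTheory Set Filter Topology Real
open scoped ContDiff

theorem Sf_congr {s r : ℝ → ℝ} (h : ∀ t, 0 < t → s t ^ 2 = r t ^ 2) (t : ℝ) (ht : 0 ≤ t) :
    Sf s t = Sf r t := by
  unfold Sf
  congr 1
  rw [intervalIntegral.integral_of_le ht, intervalIntegral.integral_of_le ht]
  exact setIntegral_congr_fun measurableSet_Ioc fun τ hτ => h τ hτ.1

theorem Mf_congr {s r : ℝ → ℝ} (h : ∀ t, 0 < t → s t ^ 2 = r t ^ 2) : Mf s = Mf r := by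
  unfold Mf
  congr 1
  exact setIntegral_congr_fun measurableSet_Ioi fun τ hτ => h τ hτ

theorem fin (h1 : T_radm) (h2 : T_weak) (h3 : T_radc) (h4 : T_real) (h5 : T_pos) (h6 : T_bump)
    (h7 : T_one) (h8 : T_ex0) (h9 : T_gt1) (h10 : T_att) : T_fin := by
  intro u lam hu hr
  obtain ⟨f, hf⟩ := hr
  obtain ⟨G, hG⟩ := hu.1
  obtain ⟨hm, hmass⟩ := h1 u f hG.memLp hf
  have hw := h2 u lam f hu hf
  obtain ⟨s, s1, hs, hsm⟩ := h3 lam f hm hw
  obtain ⟨σ, σ1, hσ, habs⟩ := h4 lam s s1 hs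
  have hmσ : mass u = Mf σ := by
    rw [hmass, ← hsm]
    exact Mf_congr fun t ht => by rw [← habs t ht, sq_abs]
  obtain ⟨w, w1, hw0, -⟩ := h8 0 le_rfl
  have hw1 : 1 < Mf w := h9 0 w w1 hw0
  have hatt : Attained (Mf w) := h10 w w1 hw0
  have key : mass u ≤ Mf w := by
    rcases le_or_gt (Mf σ) 1 with hle | hgt
    · rw [hmσ]; linarith
    · have hne : ∃ r, 0 < r ∧ σ r ≠ 0 := by
        by_contra hcon
        push Not at hcon
        have : Mf σ = 0 := by
          unfold Mf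
          rw [setIntegral_congr_fun (g := fun _ => (0 : ℝ)) measurableSet_Ioi
            (fun t ht => by simp [hcon t ht])]
          simp
        linarith
      have hlam := h5 lam σ σ1 hσ hne
      obtain ⟨x, ell, z, z1, hz, hle⟩ := h6 lam σ σ1 hσ hlam hgt
      rw [hmσ]
      exact hle.trans (h7 x ell z z1 w w1 hz hw0)
  refine ⟨⟨Mf w, key, by linarith, hatt⟩, fun tc htc => ?_⟩
  exact key.trans ((htc (Mf w) (by linarith)).1 hatt)

end Pool.Agent.H99.HM
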